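import Pool.Agent.H31.PC.Targets

/-! # Module RSZ (helper23): the size of the resultant -/

namespace Pool.Agent.H23.PC.RSZ

open Finset MvPolynomial Pool.Agent.H31.RZ Pool.Agent.H31.PC

theorem entry_le (d e R : ℕ) (φ ψ : Polynomial ℤ) (hφ : ∀ j, |φ.coeff j| ≤ R)
    (hψ : ∀ j, |ψ.coeff j| ≤ R) (i j : Fin (d + e)) :
    AbsoluteValue.abs (Polynomial.sylvester φ ψ d e i j) ≤ (R : ℤ) := by
  rw [AbsoluteValue.abs_apply]
  unfold Polynomial.sylvester
  rw [Matrix.of_apply]
  induction j using Fin.addCases with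
  | left j₁ =>
    rw [Fin.addCases_left]
    split_ifs
    · exact hψ _
    · simp
  | right j₁ =>
    rw [Fin.addCases_right]
    split_ifs
    · exact hφ _
    · simp

theorem pf_RSZ : T_RSZ := by
  intro d e R φ ψ hφ hψ
  have h := Matrix.det_le (A := Polynomial.sylvester φ ψ d e)
    (abv := (AbsoluteValue.abs : AbsoluteValue ℤ ℤ)) (x := (R : ℤ)) (entry_le d e R φ ψ hφ hψ)
  rw [AbsoluteValue.abs_apply, Fintype.card_fin, nsmul_eq_mul] at h
  exact_mod_cast h

end Pool.Agent.H23.PC.RSZ
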